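import Pool.Agent.Work.MP_55ff09_co.Kor.Baker
import Pool.Agent.Work.MP_55ff09_co.T
import Pool.Agent.Work.MP_55ff09_co.I
import Pool.Agent.Work.MP_55ff09_co.TC
import Pool.Agent.Work.MP_55ff09_co.SP
import Pool.Agent.Work.MP_55ff09_co.SE
import Pool.Agent.Work.MP_55ff09_co.LG
import Pool.Agent.Work.MP_55ff09_co.PG
import Pool.Agent.Work.MP_55ff09_co.ST
import Pool.Agent.Work.MP_55ff09_co.BL
import Pool.Agent.Work.MP_55ff09_co.BT
import Pool.Agent.Work.MP_55ff09_co.LI
import Pool.Agent.Work.MP_55ff09_co.BG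
import Pool.Agent.Work.MP_55ff09_co.AR
import Pool.Agent.Work.MP_55ff09_co.LO
import Pool.Agent.Work.MP_55ff09_co.NL
import Pool.Agent.Work.MP_55ff09_co.MN
import Pool.Agent.Work.MP_55ff09_co.BF
import Pool.Agent.Work.MP_55ff09_co.Link

/-!
Bounded degree graphs excluding an arbitrary induced minor `H` have bounded Baker-treewidth: the
vertices at distance `2, ..., ℓ` from a connected set, and any `ℓ + 1` consecutive breadth first
search layers, induce a graph of tree width at most `f ℓ`, where `f` depends only on `H` and on the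
maximum degree.
-/

namespace Pool.Agent.Results.MP_55ff09_co.BoundedBakerTreewidth

open Pool.Agent.IM55

theorem result (m : ℕ) (H : SimpleGraph (Fin m)) (Δ : ℕ) :
    ∃ f : ℕ → ℕ, ∀ (V : Type) [Finite V] (G : SimpleGraph V), ¬ IsInducedMinor H G →
      (∀ v, (G.neighborSet v).ncard ≤ Δ) →
      (∀ S : Set V, (G.induce S).Connected →
        ∀ ℓ : ℕ, TreewidthLE (G.induce (annulus G S ℓ)) (f ℓ)) ∧
      ∀ ρ : G.ConnectedComponent → V, (∀ c, G.connectedComponentMk (ρ c) = c) →
        (∀ u v, G.Adj u v → bfs G ρ u ≤ bfs G ρ v + 1) ∧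
        ∀ i ℓ : ℕ, TreewidthLE (G.induce {v | i ≤ bfs G ρ v ∧ bfs G ρ v ≤ i + ℓ}) (f ℓ) := by
  have hSE := claimSelect claimTrans claimInterval
  have hLK := claimLink (claimLinkStep claimSpine (claimLegs hSE) claimPigeon)
  have hAR := claimArray (claimBlockG claimBlock (claimBlockT claimBlock) claimLift) claimLift
  have hLO := claimLocal hLK claimTouchCard hAR
  have hNL := claimNonlocal claimTrans claimBall claimTouchCard hAR
  have hMN := claimMain hLO hNL
  exact Kor.baker_of hMN (claimBFS hMN) m H Δ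

end Pool.Agent.Results.MP_55ff09_co.BoundedBakerTreewidth
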