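import Pool.Agent.Work.MP_55ff09_co.GC.Main

/-!
# Clique minors in bounded degree graphs without an induced minor `H`, `H / K` planar

`H` is a graph with a clique `K` (possibly empty) such that `H - K` can be drawn in a half plane with
all neighbours of `K` on the boundary line (equivalently: the contraction of `K` gives a planar graph).
Then graphs of bounded degree without `H` as an induced minor have bounded clique minors. With the
theorem of Dujmovic, Esperet, Morin, Walczak and Wood (2022) on bounded degree graphs without a `K_t`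
minor this answers the question (embedding in the strong product of a graph of bounded tree width and a
path) for all these `H`.
-/

set_option autoImplicit false

namespace Pool.Agent.Results.MP_55ff09_co.CliqueContraction

open Pool.Agent.IM55

/-- the positions `p` and `q` (row, column) of the grid are adjacent -/
def GridAdj (p q : ℕ × ℕ) : Prop :=
  (p.1 = q.1 ∧ (p.2 + 1 = q.2 ∨ q.2 + 1 = p.2)) ∨ (p.2 = q.2 ∧ (p.1 + 1 = q.1 ∨ q.1 + 1 = p.1))

/-- the infinite grid graph -/
def gridGraph : SimpleGraph (ℕ × ℕ) where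
  Adj := GridAdj
  symm := ⟨by
    intro p q h
    unfold GridAdj at *
    omega⟩
  loopless := ⟨by
    intro p h
    unfold GridAdj at h
    omega⟩

/-- `K` is a clique of `H`, and the sets `B v`, `v ∉ K`, are the branch sets of an induced minor model of
`H - K` in the `n × n` grid, such that the branch set of every vertex adjacent to `K` meets the first
row -/
structure HalfPlaneModel {m : ℕ} (H : SimpleGraph (Fin m)) (K : Set (Fin m)) (n : ℕ)
    (B : Fin m → Set (ℕ × ℕ)) : Prop where
  clique : ∀ u ∈ K, ∀ v ∈ K, u ≠ v → H.Adj u v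
  inGrid : ∀ v ∉ K, ∀ q ∈ B v, q.1 < n ∧ q.2 < n
  connected : ∀ v ∉ K, (gridGraph.induce (B v)).Connected
  disjoint : ∀ u ∉ K, ∀ v ∉ K, u ≠ v → Disjoint (B u) (B v)
  adj_iff : ∀ u ∉ K, ∀ v ∉ K, u ≠ v → (H.Adj u v ↔ ∃ p ∈ B u, ∃ q ∈ B v, GridAdj p q)
  firstRow : ∀ u ∈ K, ∀ v ∉ K, H.Adj u v → ∃ y, (0, y) ∈ B v

theorem result (m : ℕ) (H : SimpleGraph (Fin m)) (K : Set (Fin m)) (n : ℕ)
    (B : Fin m → Set (ℕ × ℕ)) (h : HalfPlaneModel H K n B) (D : ℕ) :
    ∃ t : ℕ, ∀ (V : Type) [Finite V] (G : SimpleGraph V),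
      (∀ v, (G.neighborSet v).ncard ≤ D) → ¬ IsInducedMinor H G →
      ¬ IsInducedMinor (⊤ : SimpleGraph (Fin t)) G := by
  have h' : GC.Hp H K n B := ⟨h.clique, h.inGrid, h.connected, h.disjoint, h.adj_iff, h.firstRow⟩
  obtain ⟨t, ht⟩ := GC.final m H K n B h' D
  exact ⟨t, fun V _ G hG hH => ht G hG hH⟩

end Pool.Agent.Results.MP_55ff09_co.CliqueContraction
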