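import Pool.Agent.Work.MP_55ff09_co.PL.Main

/-!
Bounded degree graphs excluding an arbitrary induced minor `H` embed in the strong product of a path
and a graph whose tree width is polylogarithmic in the number of vertices.
-/

namespace Pool.Agent.Results.MP_55ff09_co.PolylogProductStructure

open Pool.Agent.IM55

theorem result (m : ℕ) (H : SimpleGraph (Fin m)) (Δ : ℕ) :
    ∃ C : ℕ, ∀ (V : Type) [Finite V] (G : SimpleGraph V), ¬ IsInducedMinor H G →
      (∀ v, (G.neighborSet v).ncard ≤ Δ) →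
      ∃ (W : Type) (_ : Finite W) (J : SimpleGraph W) (k : ℕ) (φ : V → W × Fin k),
        TreewidthLE J (C * (Nat.log 2 (Nat.card V) + 1) ^ 2) ∧
        Function.Injective φ ∧
        ∀ u v, G.Adj u v →
          ((φ u).1 = (φ v).1 ∨ J.Adj (φ u).1 (φ v).1) ∧
          ((φ u).2 = (φ v).2 ∨ (SimpleGraph.pathGraph k).Adj (φ u).2 (φ v).2) := by
  obtain ⟨C, hC⟩ := PL.main H Δ
  refine ⟨C, ?_⟩
  intro V _ G hH hG
  obtain ⟨W, J, k, φ, hT, h1, h2⟩ := hC G hG hH
  refine ⟨Set.range (fun v => (φ v).1), inferInstance, J.induce _, k,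
    fun v => (⟨(φ v).1, v, rfl⟩, (φ v).2), ?_, ?_, ?_⟩
  · obtain ⟨T, t, bag, b1, b2, b3, b4⟩ := hT
    refine ⟨T, t, fun x => Subtype.val ⁻¹' bag x, b1, fun w => b2 w.1, ?_, ?_⟩
    · intro u v huv
      exact b3 u.1 v.1 huv
    · intro x
      refine le_trans ?_ (b4 x)
      exact Set.encard_le_encard_of_injOn (f := Subtype.val) (fun y hy => hy)
        (Subtype.val_injective.injOn)
  · intro u v huv
    apply h1
    have e1 := congrArg Prod.fst huv
    have e2 := congrArg Prod.snd huv
    exact Prod.ext (congrArg Subtype.val e1) e2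
  · intro u v huv
    obtain ⟨g1, g2⟩ := h2 u v huv
    exact ⟨g1.imp (fun e => Subtype.ext e) id, g2⟩

end Pool.Agent.Results.MP_55ff09_co.PolylogProductStructure
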