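import Pool.Agent.Work.MP_55ff09_co.SG.Main

/-!
Graphs of bounded degree which are intersection graphs of connected sets on a triangulated closed
surface (string graphs on surfaces) embed in the strong product of a path and a graph of bounded
tree width.
-/

namespace Pool.Agent.Results.MP_55ff09_co.StringGraphsOnSurfaces

open Pool.Agent.IM55

theorem result (g Δ : ℕ) (P : Type) [Finite P] (T : Finset (Finset P)) (hT : SG.Surf T g)
    (V : Type) [Finite V] (G : SimpleGraph V) (S : V → Set P) (hS : SG.Str T G S)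
    (hΔ : ∀ v, (G.neighborSet v).ncard ≤ Δ) :
    ∃ (W : Type) (_ : Finite W) (J : SimpleGraph W) (k : ℕ) (φ : V → W × Fin k),
      TreewidthLE J (36 * (g + 2) * (Δ + 1) * (5 * Δ + 6)) ∧
      Function.Injective φ ∧
      ∀ u v, G.Adj u v →
        ((φ u).1 = (φ v).1 ∨ J.Adj (φ u).1 (φ v).1) ∧
        ((φ u).2 = (φ v).2 ∨ (SimpleGraph.pathGraph k).Adj (φ u).2 (φ v).2) := by
  have : Fintype P := Fintype.ofFinite P
  obtain ⟨W, J, k, φ, hJ, h1, h2⟩ := SG.main_final T g Δ G S hT hS hΔ
  have e : (6 * g + 12) * (Δ + 1) * (5 * (6 * (Δ + 1) + 1) + 1) =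
      36 * (g + 2) * (Δ + 1) * (5 * Δ + 6) := by ring
  rw [e] at hJ
  refine ⟨Set.range (fun v => (φ v).1), inferInstance, J.induce _, k,
    fun v => (⟨(φ v).1, v, rfl⟩, (φ v).2), ?_, ?_, ?_⟩
  · obtain ⟨T', t, bag, b1, b2, b3, b4⟩ := hJ
    refine ⟨T', t, fun x => Subtype.val ⁻¹' bag x, b1, fun w => b2 w.1, ?_, ?_⟩
    · intro u v huv
      exact b3 u.1 v.1 huv
    · intro x
      refine le_trans ?_ (b4 x)
      exact Set.encard_le_encard_of_injOn (f := Subtype.val) (fun y hy => hy)
        (Subtype.val_injective.injOn)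
  · intro u v huv
    apply h1
    have e1 := congrArg Prod.fst huv
    have e2 := congrArg Prod.snd huv
    exact Prod.ext (congrArg Subtype.val e1) e2
  · intro u v huv
    obtain ⟨g1, g2⟩ := h2 u v huv
    exact ⟨g1.imp (fun e => Subtype.ext e) id, g2⟩

end Pool.Agent.Results.MP_55ff09_co.StringGraphsOnSurfaces
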